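import Pool.Agent.W647.HY4

/-!
# Odd Chern characters of `K₁` of group-graded rings at the elements of finite order

Let `S` be a ring graded by a group `G`, for example the endomorphism ring of an object of the
twisted group category `𝒜[G]` of an additive `G`-category `𝒜`, a crossed product, a twisted or a
skew group ring. For `g ∈ G` of finite order, the classes of degree `2 k + 1` in the cohomology of
`C(g) / ⟨g⟩`, with arbitrary coefficients, pair with the invertible matrices over `S`, through the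
component at the conjugacy class of `g` of the integral odd Chern character. We prove that these
numbers are divisible by all `N` prime to the torsion of `G` if `k ≥ 1`.
-/

set_option autoImplicit false

namespace Pool.Agent.Results.MP_490288_al.GradedOddChern

open Pool.Agent.W647.HX1

universe u1 u2 u3 u4 u5

/-- Let `S` be a ring graded by a group `G`, with homogeneous components `𝒮 g`, `A` and `M` abelian
groups, `T : S × A → M` biadditive with `T (x y, a) = T (y x, a)`, `g ∈ G` of finite order, `k ≥ 1`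
and `c` an `A`-valued class cocycle for `g` of degree `2 k + 1`. Let `u` be an invertible matrix over
`S` with inverse `v`, and `τ = ∑ T (tr (v_{w 0} u_{w 1} v_{w 2} ⋯ u_{w (2 k + 1)}),
c (t, t w₀, t w₀ w₁, …, t w₀ ⋯ w_{2 k}))`, the sum over all `w ∈ G ^ (2 k + 2)` whose product `y`
is conjugate to `g`, where `t y t⁻¹ = g` and `u_s`, `v_s` are the homogeneous components of degree
`s`. Let `N ≥ 1` and assume that `G` has no element of order `p` for the primes `p ∣ N`. Then `k! τ`
is divisible by `N` in `M`, and `τ = 0` if `N M = 0` and `N` is prime to `k!`. -/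
theorem result (G : Type u1) [Group G] [DecidableEq G] (S : Type u2) [Ring S]
    (𝒮 : G → AddSubgroup S) [DirectSum.Decomposition 𝒮] (h1 : (1 : S) ∈ 𝒮 1)
    (hmul : ∀ g h : G, ∀ x ∈ 𝒮 g, ∀ y ∈ 𝒮 h, x * y ∈ 𝒮 (g * h))
    (A : Type u3) [AddCommGroup A] (M : Type u4) [AddCommGroup M]
    (T : S →+ A →+ M) (hT : ∀ x y, T (x * y) = T (y * x))
    (g : G) (hg : IsOfFinOrder g) (t : G → G) (ht : ∀ y, IsConj y g → t y * y * (t y)⁻¹ = g)
    (k : ℕ) (hk : 1 ≤ k) (c : (Fin (2 * k + 1 + 1) → G) → A) (hc : IsClassCoc g c)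
    (d : Type u5) [Fintype d] [DecidableEq d] (u v : Matrix d d S) (huv : u * v = 1)
    (hvu : v * u = 1) (N : ℕ) (hN : N ≠ 0)
    (hnt : ∀ p : ℕ, p.Prime → p ∣ N → ∀ y : G, orderOf y ≠ p) :
    (∃ y : M, k.factorial • odTau T g t c (gc 𝒮 v) (gc 𝒮 u) = N • y) ∧
    (N.Coprime k.factorial → (∀ y : M, N • y = 0) →
      odTau T g t c (gc 𝒮 v) (gc 𝒮 u) = 0) := by
  have h0 : ∃ y : M, k.factorial • odTau T g t c (gc 𝒮 v) (gc 𝒮 u) = N • y :=
    graded_odd 𝒮 h1 hmul T hT hg ht (by omega) hc v u hvu huv N hN hnt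
  refine ⟨h0, fun hcop hM => ?_⟩
  obtain ⟨y, hy⟩ := h0
  rw [hM] at hy
  have h3 := Nat.gcd_eq_gcd_ab N k.factorial
  rw [hcop] at h3
  have h4 : ((N : ℤ) * (Nat.gcdA N k.factorial) +
      ((k.factorial : ℕ) : ℤ) * (Nat.gcdB N k.factorial)) •
        odTau T g t c (gc 𝒮 v) (gc 𝒮 u) = odTau T g t c (gc 𝒮 v) (gc 𝒮 u) := by
    rw [← h3, Nat.cast_one, one_smul]
  rw [add_smul, mul_smul, natCast_zsmul, hM, zero_add, mul_smul, natCast_zsmul, smul_comm, hy,
    smul_zero] at h4
  exact h4.symm

end Pool.Agent.Results.MP_490288_al.GradedOddChern
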