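import Pool.Agent.W647.R2
import Pool.Agent.H290R4.ChernZ

/-!
# Odd Chern characters of group-graded rings: the index pairing

Let `R` be a ring graded by a group `G` and `I` a graded ideal, so that `R → R / I` is an arbitrary
extension of a `G`-graded ring (for example of the endomorphism ring of an object of the twisted
group category `𝒜[G]` of an additive `G`-category `𝒜`). A trace on a power of `I` pairs with the
invertible matrices over `R / I` by `T (tr ((1 - U V) ^ N - (1 - V U) ^ N))`, where `U` and `V` lift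
the matrix and its inverse (the trace of the index in `K₀(I)`; in the sense of Cuntz and Quillen
these are the odd cyclic cocycles on `R / I`). We show that this pairing is concentrated at the bad
elements of `G`.
-/

set_option autoImplicit false

namespace Pool.Agent.Results.MP_490288_al.IndexPairing

open Pool.Agent.W647 Pool.Agent.H23R2.Ch

universe u1 u2 u3 u4 u5

/-- Let `R` be a `k`-algebra graded by a group `G` (`k` any commutative ring, e.g. `ℤ`), with
homogeneous components `𝒮 g`, let `I` be a graded two-sided ideal of `R`, `n ≥ 0` and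
`T : I ^ (n + 1) → M` an additive map with values in an abelian group `M` such that
`T (x y) = T (y x)` for `x ∈ I ^ (n + 1)` and `y ∈ R`. Let `U`, `V` be matrices over `R` which are
inverse to each other modulo `I`. Suppose that for every finitely generated subgroup `H` of `G` and
every `g` in `H` one of the following holds: `g` is not conjugate in `H` to `g ^ (p ^ j)` for
`j ≥ 1`, where `p` is a prime such that `M` has no nonzero element divisible by all powers of `p`;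
or `g ≠ 1`, `H` is residually finite or linear over a field, and `M` has this property for all
primes; or `T` vanishes on the homogeneous elements of `I ^ (n + 1)` of degree `g`. Then
`T (tr ((1 - U V) ^ N - (1 - V U) ^ N)) = 0` for all `N ≥ n + 1`. -/
theorem result (k : Type u1) [CommRing k] (G : Type u2) [Group G] [DecidableEq G]
    (R : Type u3) [Ring R] [Algebra k R] (𝒮 : G → Submodule k R)
    (hint : DirectSum.IsInternal 𝒮) (h1 : (1 : R) ∈ 𝒮 1)
    (hmul : ∀ g h : G, ∀ x ∈ 𝒮 g, ∀ y ∈ 𝒮 h, x * y ∈ 𝒮 (g * h))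
    (I : Submodule k R) (hI : ∀ x ∈ I, ∀ y : R, x * y ∈ I ∧ y * x ∈ I)
    (hgr : ∀ x ∈ I, x ∈ ⨆ g, I ⊓ 𝒮 g)
    (n : ℕ) (M : Type u4) [AddCommGroup M] (T : ↥(I ^ (n + 1)) →+ M)
    (hT : ∀ (x : ↥(I ^ (n + 1))) (y : R) (h : (x : R) * y ∈ I ^ (n + 1))
      (h' : y * (x : R) ∈ I ^ (n + 1)), T ⟨(x : R) * y, h⟩ = T ⟨y * (x : R), h'⟩)
    (d : ℕ) (U V : Matrix (Fin d) (Fin d) R) (hUV : ∀ i j, (1 - U * V) i j ∈ I)
    (hVU : ∀ i j, (1 - V * U) i j ∈ I)
    (hloc : ∀ H : Subgroup G, H.FG → ∀ g ∈ H,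
      (∃ p : ℕ, p.Prime ∧ (∀ x : M, (∀ m : ℕ, ∃ y : M, p ^ m • y = x) → x = 0) ∧
        ∀ j, 1 ≤ j → ∀ c ∈ H, c * g * c⁻¹ ≠ g ^ p ^ j) ∨
      (g ≠ 1 ∧ (∀ p : ℕ, p.Prime → ∀ x : M, (∀ m : ℕ, ∃ y : M, p ^ m • y = x) → x = 0) ∧
        (Group.ResiduallyFinite H ∨
          ∃ (K : Type u5) (_ : Field K) (N : ℕ) (φ : H →* GL (Fin N) K),
            Function.Injective φ)) ∨
      (∀ x : ↥(I ^ (n + 1)), (x : R) ∈ 𝒮 g → T x = 0))
    (N : ℕ) (hN : n + 1 ≤ N) :
    ∃ h : ((1 - U * V) ^ N - (1 - V * U) ^ N).trace ∈ I ^ (n + 1),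
      T ⟨((1 - U * V) ^ N - (1 - V * U) ^ N).trace, h⟩ = 0 := by
  classical
  have htop : ⨆ g, 𝒮 g = ⊤ := DirectSum.IsInternal.submodule_iSup_eq_top hint
  obtain ⟨H1, hH1, hU⟩ := G4.exists_fg htop U
  obtain ⟨H2, hH2, hV⟩ := G4.exists_fg htop V
  let H := H1 ⊔ H2
  have hH : H.FG := hH1.sup hH2
  have hU' : ∀ i j, U i j ∈ R2.RH 𝒮 H := fun i j =>
    G4.iSup_mono_subgroup (le_sup_left : H1 ≤ H) (hU i j)
  have hV' : ∀ i j, V i j ∈ R2.RH 𝒮 H := fun i j =>
    G4.iSup_mono_subgroup (le_sup_right : H2 ≤ H) (hV i j)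
  have hFG : Group.FG H := (Group.fg_iff_subgroup_fg H).2 hH
  let T0 : R → M := fun x => if h : x ∈ I ^ (n + 1) then T ⟨x, h⟩ else 0
  have hT0 : ∀ (x : R) (h : x ∈ I ^ (n + 1)), T0 x = T ⟨x, h⟩ := fun x h => dif_pos h
  have hadd : ∀ x ∈ I ^ (n + 1), ∀ y ∈ I ^ (n + 1), T0 (x + y) = T0 x + T0 y := by
    intro x hx y hy
    rw [hT0 x hx, hT0 y hy, hT0 _ (Submodule.add_mem _ hx hy), ← map_add]
    rfl
  have hcomm : ∀ x ∈ I ^ (n + 1), ∀ y, T0 (x * y) = T0 (y * x) := by
    intro x hx y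
    have h2 := R2.pow_ideal hI n hx y
    rw [hT0 _ h2.1, hT0 _ h2.2]
    exact hT ⟨x, hx⟩ y h2.1 h2.2
  obtain ⟨e1, e2, e3⟩ := R2.vanish h1 hmul hI hint hgr n hadd hcomm H (by
    intro g
    rcases hloc H hH _ g.2 with ⟨p, hp, hM, hc⟩ | ⟨hg1, hM, hRF⟩ | hT1
    · refine Or.inl ⟨p, hp, hM, fun j hj1 hcj => ?_⟩
      obtain ⟨c, hc2⟩ := isConj_iff.1 hcj
      exact hc j hj1 c c.2 (by simpa using congrArg Subtype.val hc2)
    · left
      have hRF' : Group.ResiduallyFinite H := by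
        rcases hRF with h2 | ⟨K, iK, N, φ, hφ⟩
        · exact h2
        · exact Pool.Agent.H290R4.ChernZ.malcev φ hφ
      obtain ⟨p, hp, hc⟩ := Pool.Agent.H290R4.ChernZ.exists_prime g
        (fun h0 => hg1 (congrArg Subtype.val h0))
      refine ⟨p, hp, hM p hp, fun j hj1 hcj => ?_⟩
      obtain ⟨c, hc2⟩ := isConj_iff.1 hcj
      exact hc j hj1 c hc2
    · right
      intro x hx hxI
      rw [hT0 x hxI]
      exact hT1 ⟨x, hxI⟩ hx) U V hU' hV' hUV hVU
  refine ⟨e2 N hN, ?_⟩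
  rw [← hT0 _ (e2 N hN), e3 N hN, e1]

end Pool.Agent.Results.MP_490288_al.IndexPairing
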